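import Pool.Agent.TH308.LF.Psh

/-!
# The local complex Monge-Ampere flow does not exist from data with a positive Lelong number

`Pool.Agent.Helper853.cHess u z` (starting library) is the complex Hessian matrix
`(∂²u/∂z_j∂z̄_k)` of a real function on `ℂ^n`, and `Pool.Agent.Helper853.IsPsh` are the
plurisubharmonic functions `ℂ^n → [-∞, ∞)` (upper semicontinuous, at the centre of every complex
disc at most the mean over its boundary circle).
-/

set_option autoImplicit false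
set_option maxHeartbeats 4000000

open scoped Topology ContDiff ComplexOrder
open MeasureTheory Filter Metric Set Pool.Agent.Helper853

namespace Pool.Agent.Results.MP_8f0dee_an.LelongObstruction

variable {n : ℕ}

/-- Bounded strictly pseudoconvex domains of `ℂ^n` with smooth boundary: bounded connected open
sets `Ω` with a smooth strictly plurisubharmonic defining function `ρ` on a neighbourhood of the
closure, `Ω = {ρ < 0}` and `dρ ≠ 0` on `∂Ω`. -/
structure IsStrictlyPseudoconvexDomain (Ω : Set (Fin n → ℂ)) : Prop where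
  isOpen : IsOpen Ω
  isConnected : IsConnected Ω
  isBounded : Bornology.IsBounded Ω
  exists_defining : ∃ (U : Set (Fin n → ℂ)) (ρ : (Fin n → ℂ) → ℝ), IsOpen U ∧ closure Ω ⊆ U ∧
    ContDiffOn ℝ ∞ ρ U ∧ Ω = {z | z ∈ U ∧ ρ z < 0} ∧ (∀ z ∈ U, (cHess ρ z).PosDef) ∧
    ∀ z ∈ frontier Ω, ρ z = 0 ∧ fderiv ℝ ρ z ≠ 0

/-- Boundary data: `φ` is smooth on `Ω̄ × [0, T)` and `φ(z, t) = u₀(z)` for `z ∈ ∂Ω`. -/
structure IsBoundaryData (Ω : Set (Fin n → ℂ)) (T : ℝ) (u₀ : (Fin n → ℂ) → EReal)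
    (φ : (Fin n → ℂ) → ℝ → ℝ) : Prop where
  smooth : ContDiffOn ℝ ∞ (fun p : (Fin n → ℂ) × ℝ => φ p.1 p.2) (closure Ω ×ˢ Ico 0 T)
  matching : ∀ z ∈ frontier Ω, ∀ t ∈ Ico 0 T, (φ z t : EReal) = u₀ z

/-- Classical solutions of the flow with initial datum `u₀` and boundary data `φ`. Only continuity
on `Ω̄ × (0, T)` and two continuous derivatives on `Ω × (0, T)` are required, which is less than
`u ∈ C^∞(Ω̄ × (0, T))`. -/
structure IsSolution (Ω : Set (Fin n → ℂ)) (T : ℝ) (u₀ : (Fin n → ℂ) → EReal)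
    (φ u : (Fin n → ℂ) → ℝ → ℝ) : Prop where
  smooth : ContDiffOn ℝ 2 (fun p : (Fin n → ℂ) × ℝ => u p.1 p.2) (Ω ×ˢ Ioo 0 T)
  continuous : ContinuousOn (fun p : (Fin n → ℂ) × ℝ => u p.1 p.2) (closure Ω ×ˢ Ioo 0 T)
  strictlyPsh : ∀ t ∈ Ioo 0 T, ∀ z ∈ Ω, (cHess (fun w => u w t) z).PosDef
  equation : ∀ t ∈ Ioo 0 T, ∀ z ∈ Ω,
    deriv (fun s => u z s) t = Real.log (cHess (fun w => u w t) z).det.re
  boundary : ∀ t ∈ Ioo 0 T, ∀ z ∈ frontier Ω, u z t = φ z t
  initial : ∀ z ∈ closure Ω, Tendsto (fun t => (u z t : EReal)) (𝓝[>] 0) (𝓝 (u₀ z))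

/-- `u₀` has a positive Lelong number at `a`: `u₀(z) ≤ γ log |z - a| + C` near `a`, `γ > 0`. -/
def HasPositiveLelongNumber (u₀ : (Fin n → ℂ) → EReal) (a : Fin n → ℂ) : Prop :=
  ∃ γ C : ℝ, 0 < γ ∧ ∀ᶠ z in 𝓝[≠] a, u₀ z ≤ ((γ * Real.log ‖z - a‖ + C : ℝ) : EReal)

/-- `log |z - a|` (Euclidean norm), with the value `-∞` at `a` -/
noncomputable def logNorm (a z : Fin n → ℂ) : EReal :=
  if z = a then ⊥ else ((1 / 2 * Real.log (∑ j, ‖z j - a j‖ ^ 2) : ℝ) : EReal)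

/-- the Euclidean unit ball of `ℂ^n` -/
def unitBall (n : ℕ) : Set (Fin n → ℂ) := {z | ∑ j, ‖z j‖ ^ 2 < 1}

/-- no solution in the presence of a positive Lelong number -/
theorem obstruction (hn : 1 ≤ n) {Ω : Set (Fin n → ℂ)} (hΩ : IsOpen Ω)
    (hb : Bornology.IsBounded Ω) {T : ℝ} (hT : 0 < T) {u₀ : (Fin n → ℂ) → EReal}
    {φ u : (Fin n → ℂ) → ℝ → ℝ} (hφ : IsBoundaryData Ω T u₀ φ) (hu : IsSolution Ω T u₀ φ u)
    {a : Fin n → ℂ} (ha : a ∈ Ω) : ¬ HasPositiveLelongNumber u₀ a := by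
  rintro ⟨γ, C, hγ, hev⟩
  -- the boundary values are bounded
  have hK : IsCompact (frontier Ω) :=
    hb.isCompact_closure.of_isClosed_subset isClosed_frontier frontier_subset_closure
  have hc : ContinuousOn (fun z => φ z 0) (frontier Ω) := by
    have hg : ContinuousOn (fun w : Fin n → ℂ => (w, (0 : ℝ))) (frontier Ω) := by fun_prop
    exact hφ.smooth.continuousOn.comp hg fun w hw => ⟨frontier_subset_closure hw, le_rfl, hT⟩
  obtain ⟨M, hM⟩ := hK.exists_bound_of_continuousOn hc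
  have h5 : ∀ t ∈ Ioo 0 T, ∀ z ∈ frontier Ω, u z t ≤ M := by
    intro t ht z hz
    rw [hu.boundary t ht z hz]
    have e1 := hφ.matching z hz t ⟨ht.1.le, ht.2⟩
    have e2 := hφ.matching z hz 0 ⟨le_rfl, hT⟩
    have e3 : φ z t = φ z 0 := by
      have := e1.trans e2.symm
      exact_mod_cast this
    rw [e3]
    exact (le_abs_self _).trans (hM z hz)
  rw [eventually_nhdsWithin_iff, Metric.eventually_nhds_iff] at hev
  obtain ⟨r, hr, hr'⟩ := hev
  exact Pool.Agent.TH308.LF.no_solution hn hΩ hb hT hu.smooth hu.continuous hu.strictlyPsh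
    hu.equation h5 (fun z hz => hu.initial z (subset_closure hz)) ha hγ hr
    (fun z hz hzr => by
      have := hr' hzr hz
      rwa [← dist_eq_norm] at this)

lemma positive_logNorm (hn : 1 ≤ n) (a : Fin n → ℂ) : HasPositiveLelongNumber (logNorm a) a := by
  refine ⟨1, 1 / 2 * Real.log n, one_pos, ?_⟩
  filter_upwards [self_mem_nhdsWithin] with z hz
  have := Pool.Agent.TH308.LF.logNorm_le hn a z hz
  rwa [dist_eq_norm] at this

/-- every bounded open set and every interior point have boundary data for `log |z - a|` -/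
lemma exists_data {Ω : Set (Fin n → ℂ)} (hΩ : IsOpen Ω) {a : Fin n → ℂ} (ha : a ∈ Ω) (T : ℝ) :
    ∃ φ : (Fin n → ℂ) → ℝ → ℝ, ContDiff ℝ ∞ (fun p : (Fin n → ℂ) × ℝ => φ p.1 p.2) ∧
      IsBoundaryData Ω T (logNorm a) φ := by
  obtain ⟨ρ, hρ, hρΩ⟩ := Metric.isOpen_iff.mp hΩ a ha
  let χ : ContDiffBump a := ⟨ρ / 3, ρ / 2, by positivity, by linarith⟩
  have hpos : ∀ z : Fin n → ℂ, 0 < ∑ j, ‖z j - a j‖ ^ 2 + χ z := by
    intro z
    by_cases hz : z = a
    · subst hz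
      have : χ z = 1 := χ.one_of_mem_closedBall (mem_closedBall_self (by positivity))
      rw [this]
      simp
    · have := Pool.Agent.TH308.LF.sum_pos_of_ne hz
      have := χ.nonneg (x := z)
      linarith
  have hsm : ContDiff ℝ ∞ (fun z : Fin n → ℂ => ∑ j, ‖z j - a j‖ ^ 2 + χ z) := by
    refine ContDiff.add (ContDiff.sum fun j _ => ?_) χ.contDiff
    exact (((contDiff_apply ℝ ℂ j).sub contDiff_const).norm_sq ℝ)
  have hl : ContDiff ℝ ∞ (fun z : Fin n → ℂ => 1 / 2 * Real.log (∑ j, ‖z j - a j‖ ^ 2 + χ z)) :=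
    contDiff_const.mul (hsm.log fun z => (hpos z).ne')
  have hall : ContDiff ℝ ∞ (fun p : (Fin n → ℂ) × ℝ =>
      (fun (z : Fin n → ℂ) (_ : ℝ) => 1 / 2 * Real.log (∑ j, ‖z j - a j‖ ^ 2 + χ z)) p.1 p.2) :=
    hl.comp contDiff_fst
  refine ⟨fun z _ => 1 / 2 * Real.log (∑ j, ‖z j - a j‖ ^ 2 + χ z), hall, hall.contDiffOn, ?_⟩
  intro z hz t _
  have hzΩ : z ∉ Ω := by
    rw [frontier, hΩ.interior_eq] at hz
    exact hz.2
  have hza : z ≠ a := fun h => hzΩ (h ▸ ha)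
  have hχ : χ z = 0 := by
    apply χ.zero_of_le_dist
    by_contra hcon
    push Not at hcon
    exact hzΩ (hρΩ (mem_ball.mpr (lt_trans hcon (by
      show ρ / 2 < ρ
      linarith))))
  simp only [logNorm, if_neg hza, hχ, add_zero]

lemma contDiff_rho : ContDiff ℝ ∞ (fun z : Fin n → ℂ => ∑ j, ‖z j‖ ^ 2 - 1) := by
  refine ContDiff.sub (ContDiff.sum fun j _ => ?_) contDiff_const
  exact (contDiff_apply ℝ ℂ j).norm_sq ℝ

lemma lap2_rho (z b : Fin n → ℂ) (hb : b ≠ 0) : 0 < lap2 (fun z : Fin n → ℂ => ∑ j, ‖z j‖ ^ 2 - 1) z b := by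
  have h1 := lap2_sumSq (n := n) (F := fun (j : Fin n) (w : Fin n → ℂ) => w j) (fun j => by fun_prop) z b
  have hc : ContDiffAt ℝ 2 (fun w : Fin n → ℂ => ∑ j, ‖w j‖ ^ 2) z := by
    have : ContDiff ℝ ∞ (fun w : Fin n → ℂ => ∑ j, ‖w j‖ ^ 2) :=
      ContDiff.sum fun j _ => (contDiff_apply ℝ ℂ j).norm_sq ℝ
    exact (this.of_le ENat.LEInfty.out).contDiffAt
  have h2 : lap2 (fun z : Fin n → ℂ => ∑ j, ‖z j‖ ^ 2 - 1) z b =
      lap2 (sumSq (fun (j : Fin n) (w : Fin n → ℂ) => w j)) z b := by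
    have h3 := lap2_add (u := fun w : Fin n → ℂ => ∑ j, ‖w j‖ ^ 2) (v := fun _ => (-1 : ℝ)) hc
      contDiffAt_const b
    rw [lap2_const, add_zero] at h3
    exact h3
  rw [h2, h1]
  have h4 : ∀ j, fderiv ℝ (fun w : Fin n → ℂ => w j) z b = b j := by
    intro j
    have h : fderiv ℝ (fun y : Fin n → ℂ => y j) z = ContinuousLinearMap.proj (R := ℝ) j :=
      (ContinuousLinearMap.proj (R := ℝ) (φ := fun _ : Fin n => ℂ) j).fderiv
    rw [h]
    rfl
  simp_rw [h4]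
  have h5 := Pool.Agent.TH308.LF.sum_pos_of_ne (a := (0 : Fin n → ℂ)) hb
  simp only [Pi.zero_apply, sub_zero] at h5
  linarith

lemma ball_spc (n : ℕ) (hn : 1 ≤ n) : IsStrictlyPseudoconvexDomain (unitBall n) := by
  have hcont : Continuous (fun z : Fin n → ℂ => ∑ j, ‖z j‖ ^ 2) := by fun_prop
  have hopen : IsOpen (unitBall n) := isOpen_lt hcont continuous_const
  refine ⟨hopen, ?_, ?_, univ, fun z => ∑ j, ‖z j‖ ^ 2 - 1, isOpen_univ, subset_univ _,
    contDiff_rho.contDiffOn, ?_, ?_, ?_⟩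
  · have hconv : Convex ℝ (unitBall n) := by
      intro x hx y hy s t hs ht hst
      simp only [unitBall, mem_ofPred_eq] at hx hy ⊢
      have h1 : ∀ j, ‖(s • x + t • y) j‖ ^ 2 ≤ s * ‖x j‖ ^ 2 + t * ‖y j‖ ^ 2 := by
        intro j
        have h2 : ‖(s • x + t • y) j‖ ≤ s * ‖x j‖ + t * ‖y j‖ := by
          rw [Pi.add_apply, Pi.smul_apply, Pi.smul_apply]
          refine (norm_add_le _ _).trans ?_
          rw [norm_smul, norm_smul, Real.norm_of_nonneg hs, Real.norm_of_nonneg ht]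
        have h3 := pow_le_pow_left₀ (norm_nonneg _) h2 2
        refine h3.trans ?_
        have h4 : t = 1 - s := by linarith
        subst h4
        nlinarith [mul_nonneg hs ht, sq_nonneg (‖x j‖ - ‖y j‖),
          mul_nonneg (mul_nonneg hs ht) (sq_nonneg (‖x j‖ - ‖y j‖))]
      calc ∑ j, ‖(s • x + t • y) j‖ ^ 2 ≤ ∑ j, (s * ‖x j‖ ^ 2 + t * ‖y j‖ ^ 2) :=
            Finset.sum_le_sum fun j _ => h1 j
        _ = s * ∑ j, ‖x j‖ ^ 2 + t * ∑ j, ‖y j‖ ^ 2 := by
            rw [Finset.sum_add_distrib, Finset.mul_sum, Finset.mul_sum]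
        _ < 1 := by
            rcases eq_or_lt_of_le hs with h | h
            · rw [← h] at hst ⊢
              have : t = 1 := by linarith
              rw [this]
              linarith
            · have e1 : s * ∑ j, ‖x j‖ ^ 2 < s * 1 := mul_lt_mul_of_pos_left hx h
              have e2 : t * ∑ j, ‖y j‖ ^ 2 ≤ t * 1 := mul_le_mul_of_nonneg_left hy.le ht
              linarith
    exact ⟨⟨0, by simp [unitBall]⟩, hconv.isPreconnected⟩
  · refine (Metric.isBounded_closedBall (x := (0 : Fin n → ℂ)) (r := 1)).subset ?_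
    intro z hz
    rw [mem_closedBall]
    have h1 := Pool.Agent.TH308.LF.dist_sq_le z 0
    simp only [Pi.zero_apply, sub_zero] at h1
    simp only [unitBall, mem_ofPred_eq] at hz
    have h2 : 0 ≤ dist z 0 := dist_nonneg
    nlinarith
  · ext z
    simp [unitBall]
  · intro z _
    exact Pool.Agent.TH308.LF.posDef_of_lap2_pos ((contDiff_rho.of_le ENat.LEInfty.out).contDiffAt)
      (fun b hb => lap2_rho z b hb)
  · intro z hz
    have h1 : ∑ j, ‖z j‖ ^ 2 = 1 := by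
      rw [frontier, hopen.interior_eq] at hz
      have h2 : z ∈ {z : Fin n → ℂ | ∑ j, ‖z j‖ ^ 2 ≤ 1} :=
        closure_minimal (fun w hw => le_of_lt hw) (isClosed_le hcont continuous_const) hz.1
      have h3 : ¬ (∑ j, ‖z j‖ ^ 2 < 1) := hz.2
      exact le_antisymm h2 (not_lt.mp h3)
    refine ⟨by simp [h1], ?_⟩
    intro h0
    have h2 := fderiv_sumSq (n := n) (F := fun (j : Fin n) (w : Fin n → ℂ) => w j)
      (fun j => by fun_prop) z z
    have h3 : fderiv ℝ (fun z : Fin n → ℂ => ∑ j, ‖z j‖ ^ 2 - 1) z =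
        fderiv ℝ (sumSq (fun (j : Fin n) (w : Fin n → ℂ) => w j)) z := by
      have : (fun z : Fin n → ℂ => ∑ j, ‖z j‖ ^ 2 - 1) =
        fun z => sumSq (fun (j : Fin n) (w : Fin n → ℂ) => w j) z - 1 := rfl
      rw [this, fderiv_sub_const]
    rw [← h3, h0] at h2
    have h4 : ∀ j, fderiv ℝ (fun w : Fin n → ℂ => w j) z z = z j := by
      intro j
      have h : fderiv ℝ (fun y : Fin n → ℂ => y j) z = ContinuousLinearMap.proj (R := ℝ) j :=
        (ContinuousLinearMap.proj (R := ℝ) (φ := fun _ : Fin n => ℂ) j).fderiv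
      rw [h]
      rfl
    simp_rw [h4] at h2
    have h5 : (∑ j, (starRingEnd ℂ) (z j) * z j).re = 1 := by
      rw [Complex.re_sum, ← h1]
      apply Finset.sum_congr rfl
      intro j _
      rw [Complex.conj_mul']
      norm_cast
    rw [h5] at h2
    simp at h2

/-- **The flow does not exist from initial data with a positive Lelong number.** -/
theorem result :
    -- necessary condition, on every bounded open set, for all boundary data
    (∀ (n : ℕ), 1 ≤ n → ∀ Ω : Set (Fin n → ℂ), IsOpen Ω → Bornology.IsBounded Ω →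
      ∀ T : ℝ, 0 < T → ∀ (u₀ : (Fin n → ℂ) → EReal) (φ u : (Fin n → ℂ) → ℝ → ℝ),
        IsBoundaryData Ω T u₀ φ → IsSolution Ω T u₀ φ u →
          ∀ a ∈ Ω, ¬ HasPositiveLelongNumber u₀ a) ∧
    -- hence on every bounded open set and for every `T` the flow from `log |z - a|` does not exist
    (∀ (n : ℕ), 1 ≤ n → ∀ Ω : Set (Fin n → ℂ), IsOpen Ω → Bornology.IsBounded Ω →
      ∀ a ∈ Ω, ∀ T : ℝ, 0 < T → ∃ φ : (Fin n → ℂ) → ℝ → ℝ, IsPsh (logNorm a) ∧
        IsBoundaryData Ω T (logNorm a) φ ∧ ¬ ∃ u, IsSolution Ω T (logNorm a) φ u) ∧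
    -- the negated form of the question, in every dimension
    (∀ (n : ℕ), 1 ≤ n → ∃ (Ω : Set (Fin n → ℂ)) (T : ℝ) (u₀ : (Fin n → ℂ) → EReal)
      (φ : (Fin n → ℂ) → ℝ → ℝ), IsStrictlyPseudoconvexDomain Ω ∧ 0 < T ∧ IsPsh u₀ ∧
        IsBoundaryData Ω T u₀ φ ∧ ¬ ∃ u, IsSolution Ω T u₀ φ u) := by
  have h2 : ∀ (n : ℕ), 1 ≤ n → ∀ Ω : Set (Fin n → ℂ), IsOpen Ω → Bornology.IsBounded Ω →
      ∀ a ∈ Ω, ∀ T : ℝ, 0 < T → ∃ φ : (Fin n → ℂ) → ℝ → ℝ, IsPsh (logNorm a) ∧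
        IsBoundaryData Ω T (logNorm a) φ ∧ ¬ ∃ u, IsSolution Ω T (logNorm a) φ u := by
    intro n hn Ω hΩ hb a ha T hT
    obtain ⟨φ, -, hφ⟩ := exists_data hΩ ha T
    refine ⟨φ, Pool.Agent.TH308.LF.isPsh_logNorm a, hφ, ?_⟩
    rintro ⟨u, hu⟩
    exact obstruction hn hΩ hb hT hφ hu ha (positive_logNorm hn a)
  refine ⟨fun n hn Ω hΩ hb T hT u₀ φ u hφ hu a ha => obstruction hn hΩ hb hT hφ hu ha, h2, ?_⟩
  intro n hn
  have hB := ball_spc n hn
  obtain ⟨φ, h3, h4, h5⟩ := h2 n hn (unitBall n) hB.isOpen hB.isBounded 0 (by simp [unitBall]) 1 one_pos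
  exact ⟨unitBall n, 1, logNorm 0, φ, hB, one_pos, h3, h4, h5⟩

end Pool.Agent.Results.MP_8f0dee_an.LelongObstruction
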